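import Pool.Agent.Helper80.EC_F.Goals

/-! Packet LIPN: a Lipschitz formula. -/

set_option autoImplicit false

open MeasureTheory Filter Topology Set

namespace EC237.PF.PkLIPN

open Complex in
/-- Lipschitz formula with `HasSum`. -/
theorem lip (k : ℕ) (hk : 1 ≤ k) (z : UpperHalfPlane) :
    HasSum (fun n : ℤ => 1 / ((z : ℂ) + n) ^ (k + 1))
      (((-2 * Real.pi * I) ^ (k + 1) / (k.factorial : ℂ)) *
        ∑' n : ℕ, ((n : ℂ) + 1) ^ k * cexp (2 * Real.pi * I * z) ^ (n + 1)) ∧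
    Summable (fun n : ℕ => ((n : ℂ) + 1) ^ k * cexp (2 * Real.pi * I * z) ^ (n + 1)) := by
  have hs : Summable (fun n : ℕ => (n : ℂ) ^ k * cexp (2 * Real.pi * I * z) ^ n) := by
    have := summable_pow_mul_cexp k 1 z
    refine this.congr fun n => ?_
    simp
  have hs1 : Summable (fun n : ℕ => ((n : ℂ) + 1) ^ k * cexp (2 * Real.pi * I * z) ^ (n + 1)) := by
    have := (summable_nat_add_iff 1).2 hs
    refine this.congr fun n => ?_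
    push_cast
    rfl
  refine ⟨?_, hs1⟩
  have h1 : Summable (fun n : ℤ => 1 / ((z : ℂ) + n) ^ (k + 1)) := by
    have := EisensteinSeries.linear_right_summable (z : ℂ) 1 (k := (k : ℤ) + 1) (by omega)
    refine this.congr fun n => ?_
    rw [one_div]
    congr 1
    push_cast
    rw [one_mul]
    exact_mod_cast zpow_natCast ((z : ℂ) + n) (k + 1)
  have h2 := h1.hasSum
  rw [EisensteinSeries.qExpansion_identity hk z, hs.tsum_eq_zero_add] at h2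
  convert h2 using 3
  rw [Nat.cast_zero, zero_pow (by omega), zero_mul, zero_add]
  refine tsum_congr fun n => ?_
  push_cast
  rfl

open Complex in
theorem inv_pow_eq (x v : ℝ) (hv : 0 < v) (m : ℕ) :
    1 / (((x : ℂ) + v * I) ^ m) = ((x : ℂ) - v * I) ^ m / (((x ^ 2 + v ^ 2) ^ m : ℝ) : ℂ) := by
  have hD : x ^ 2 + v ^ 2 ≠ 0 := by positivity
  have h1 : ((x : ℂ) + v * I) * ((x : ℂ) - v * I) = ((x ^ 2 + v ^ 2 : ℝ) : ℂ) := by
    have : ((x : ℂ) + v * I) * ((x : ℂ) - v * I) = x ^ 2 - v ^ 2 * I ^ 2 := by ring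
    rw [this, I_sq]; push_cast; ring
  have hDc : ((x ^ 2 + v ^ 2 : ℝ) : ℂ) ≠ 0 := by exact_mod_cast hD
  have h0 : ((x : ℂ) + v * I) ≠ 0 := by
    intro h
    rw [h, zero_mul] at h1
    exact hDc h1.symm
  rw [ofReal_pow, ← h1, mul_pow]
  have h2 : ((x : ℂ) - v * I) ≠ 0 := by
    intro h
    rw [h, mul_zero] at h1
    exact hDc h1.symm
  have h3 := pow_ne_zero m h0
  have h4 := pow_ne_zero m h2
  field_simp

open Complex in
theorem re4 (x v : ℝ) (hv : 0 < v) :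
    (1 / (((x : ℂ) + v * I) ^ 4)).re = (x ^ 4 - 6 * x ^ 2 * v ^ 2 + v ^ 4) / (x ^ 2 + v ^ 2) ^ 4 := by
  rw [inv_pow_eq x v hv, div_ofReal_re]
  congr 1
  have : ((x : ℂ) - v * I) ^ 4 = ((x ^ 4 - 6 * x ^ 2 * v ^ 2 + v ^ 4 : ℝ) : ℂ) +
      ((4 * x * v ^ 3 - 4 * x ^ 3 * v : ℝ) : ℂ) * I := by
    have h2 : (I : ℂ) ^ 2 = -1 := I_sq
    have h3 : (I : ℂ) ^ 3 = -I := by rw [pow_succ, I_sq]; ring
    have h4 : (I : ℂ) ^ 4 = 1 := by rw [show (4 : ℕ) = 2 * 2 from rfl, pow_mul, I_sq]; ring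
    have : ((x : ℂ) - v * I) ^ 4 = x ^ 4 - 4 * x ^ 3 * v * I + 6 * x ^ 2 * v ^ 2 * I ^ 2 -
      4 * x * v ^ 3 * I ^ 3 + v ^ 4 * I ^ 4 := by ring
    rw [this, h2, h3, h4]
    push_cast; ring
  rw [this, add_re, ofReal_re, re_ofReal_mul, I_re]
  ring

open Complex in
theorem im3 (x v : ℝ) (hv : 0 < v) :
    (1 / (((x : ℂ) + v * I) ^ 3)).im = (v * (v ^ 2 - 3 * x ^ 2)) / (x ^ 2 + v ^ 2) ^ 3 := by
  rw [inv_pow_eq x v hv, div_ofReal_im]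
  congr 1
  have : ((x : ℂ) - v * I) ^ 3 = ((x ^ 3 - 3 * x * v ^ 2 : ℝ) : ℂ) +
      ((v * (v ^ 2 - 3 * x ^ 2) : ℝ) : ℂ) * I := by
    have h2 : (I : ℂ) ^ 2 = -1 := I_sq
    have h3 : (I : ℂ) ^ 3 = -I := by rw [pow_succ, I_sq]; ring
    have : ((x : ℂ) - v * I) ^ 3 = x ^ 3 - 3 * x ^ 2 * v * I + 3 * x * v ^ 2 * I ^ 2 -
      v ^ 3 * I ^ 3 := by ring
    rw [this, h2, h3]
    push_cast; ring
  rw [this, add_im, ofReal_im, im_ofReal_mul, I_im]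
  ring

open Complex in
theorem re_q (v t : ℝ) (n : ℕ) :
    (cexp (2 * Real.pi * I * ((t : ℂ) + v * I)) ^ (n + 1)).re =
      Real.exp (-(2 * Real.pi * v * ((n:ℝ) + 1))) * Real.cos (2 * Real.pi * ((n:ℝ) + 1) * t) := by
  rw [← Complex.exp_nat_mul, Complex.exp_re]
  have h1 : (((n + 1 : ℕ) : ℂ) * (2 * Real.pi * I * ((t : ℂ) + v * I))) =
      ((-(2 * Real.pi * v * ((n:ℝ) + 1)) : ℝ) : ℂ) + ((2 * Real.pi * ((n:ℝ) + 1) * t : ℝ) : ℂ) * I := by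
    have h2 : (I : ℂ) * I = -1 := I_mul_I
    have : (((n + 1 : ℕ) : ℂ) * (2 * Real.pi * I * ((t : ℂ) + v * I))) =
      (n + 1) * (2 * Real.pi * t) * I + (n + 1) * (2 * Real.pi * v) * (I * I) := by
      push_cast; ring
    rw [this, h2]
    push_cast; ring
  rw [h1]
  simp

open Complex in
theorem thm : G_LIPN := by
  intro v t hv
  have hz : 0 < ((t : ℂ) + v * I).im := by simpa using hv
  obtain ⟨hA, hAs⟩ := lip 3 (by norm_num) ⟨(t : ℂ) + v * I, hz⟩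
  obtain ⟨hB, hBs⟩ := lip 2 (by norm_num) ⟨(t : ℂ) + v * I, hz⟩
  simp only at hA hAs hB hBs
  set q : ℂ := cexp (2 * Real.pi * I * ((t : ℂ) + v * I)) with hq
  set c : ℕ → ℝ := fun n => Real.exp (-(2 * Real.pi * v * ((n:ℝ) + 1))) *
    Real.cos (2 * Real.pi * ((n:ℝ) + 1) * t) with hc
  have hre : ∀ (k n : ℕ), (((n : ℂ) + 1) ^ k * q ^ (n + 1)).re = ((n:ℝ) + 1) ^ k * c n := by
    intro k n
    have h1 : (((n : ℂ) + 1) ^ k * q ^ (n + 1)) = ((((n:ℝ) + 1) ^ k : ℝ) : ℂ) * q ^ (n + 1) := by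
      push_cast; rfl
    rw [h1, re_ofReal_mul, hq, re_q]
  have hA3 : HasSum (fun n : ℕ => ((n:ℝ) + 1) ^ 3 * c n)
      (∑' n : ℕ, ((n : ℂ) + 1) ^ 3 * q ^ (n + 1)).re := by
    have := Complex.hasSum_re hAs.hasSum
    simpa only [hre] using this
  have hB2 : HasSum (fun n : ℕ => ((n:ℝ) + 1) ^ 2 * c n)
      (∑' n : ℕ, ((n : ℂ) + 1) ^ 2 * q ^ (n + 1)).re := by
    have := Complex.hasSum_re hBs.hasSum
    simpa only [hre] using this
  have hA' := Complex.hasSum_re hA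
  have hB' := Complex.hasSum_im hB
  have key := (hA'.mul_left (-(3 / (2 * v ^ 2)))).sub (hB'.mul_left (1 / (2 * v ^ 3)))
  have hrhs : HasSum (fun k : ℕ => ((k:ℝ) + 1) ^ 2 *
      (1 + 2 * Real.pi * v * ((k:ℝ) + 1)) * Real.exp (-(2 * Real.pi * v * ((k:ℝ) + 1))) *
      Real.cos (2 * Real.pi * ((k:ℝ) + 1) * t))
      ((∑' n : ℕ, ((n : ℂ) + 1) ^ 2 * q ^ (n + 1)).re +
        2 * Real.pi * v * (∑' n : ℕ, ((n : ℂ) + 1) ^ 3 * q ^ (n + 1)).re) := by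
    refine (hB2.add (hA3.mul_left (2 * Real.pi * v))).congr_fun ?_
    intro n
    simp only [hc]
    ring
  rw [hrhs.tsum_eq]
  have hval : -(2 * Real.pi ^ 3 / v ^ 3) * ((∑' n : ℕ, ((n : ℂ) + 1) ^ 2 * q ^ (n + 1)).re +
        2 * Real.pi * v * (∑' n : ℕ, ((n : ℂ) + 1) ^ 3 * q ^ (n + 1)).re) =
      -(3 / (2 * v ^ 2)) * (((-2 * Real.pi * I) ^ (3 + 1) / (Nat.factorial 3 : ℂ)) *
        ∑' n : ℕ, ((n : ℂ) + 1) ^ 3 * q ^ (n + 1)).re -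
      1 / (2 * v ^ 3) * (((-2 * Real.pi * I) ^ (2 + 1) / (Nat.factorial 2 : ℂ)) *
        ∑' n : ℕ, ((n : ℂ) + 1) ^ 2 * q ^ (n + 1)).im := by
    have h2 : (I : ℂ) ^ 2 = -1 := I_sq
    have h3 : (I : ℂ) ^ 3 = -I := by rw [pow_succ, I_sq]; ring
    have h4 : (I : ℂ) ^ 4 = 1 := by rw [show (4 : ℕ) = 2 * 2 from rfl, pow_mul, I_sq]; ring
    have e1 : ((-2 * Real.pi * I) ^ (3 + 1) / (Nat.factorial 3 : ℂ)) =
        ((8 * Real.pi ^ 4 / 3 : ℝ) : ℂ) := by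
      have : ((-2 * Real.pi * I) ^ (3 + 1) : ℂ) = 16 * Real.pi ^ 4 * I ^ 4 := by ring
      rw [this, h4, show Nat.factorial 3 = 6 from rfl]
      push_cast; ring
    have e2 : ((-2 * Real.pi * I) ^ (2 + 1) / (Nat.factorial 2 : ℂ)) =
        ((4 * Real.pi ^ 3 : ℝ) : ℂ) * I := by
      have : ((-2 * Real.pi * I) ^ (2 + 1) : ℂ) = -8 * Real.pi ^ 3 * I ^ 3 := by ring
      rw [this, h3, show Nat.factorial 2 = 2 from rfl]
      push_cast; ring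
    rw [e1, e2, re_ofReal_mul, mul_assoc ((4 * Real.pi ^ 3 : ℝ) : ℂ) I, im_ofReal_mul, I_mul_im]
    field_simp
    ring
  rw [hval]
  refine key.congr_fun ?_
  intro n
  have hx : ((t : ℂ) + v * I + (n : ℂ)) = (((n:ℝ) + t : ℝ) : ℂ) + v * I := by
    push_cast; ring
  rw [hx, show 3 + 1 = 4 from rfl, show 2 + 1 = 3 from rfl, re4 _ v hv, im3 _ v hv]
  have hD : ((n:ℝ) + t) ^ 2 + v ^ 2 ≠ 0 := by positivity
  field_simp
  ring

end EC237.PF.PkLIPN
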